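import Pool.Agent.H42IV.Main

/-!
# A nonabelian variety of groups in which every group has an integral

An integral of a group `G` is a group `H` whose commutator subgroup is isomorphic to `G`.  For every
odd prime `p` all groups (finite or infinite) of exponent dividing `p` and of nilpotency class at most
two have an integral.  They form a variety, and it contains nonabelian groups.
-/

set_option autoImplicit false

namespace Pool.Agent.Results.MP_fbf3cb_al.ClassTwo

universe u

open scoped commutatorElement

/-- The group `G` satisfies the laws `w = 1` for all words `w` in the set `L` of words in the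
variables `x_0, x_1, x_2, …`: it belongs to the variety of groups defined by `L`. -/
def InVariety (L : Set (FreeGroup ℕ)) (G : Type u) [Group G] : Prop :=
  ∀ w ∈ L, ∀ f : ℕ → G, FreeGroup.lift f w = 1

/-- `G` has an integral: it is isomorphic to the commutator subgroup `[H, H]` of a group `H`. -/
def HasIntegral (G : Type u) [Group G] : Prop :=
  ∃ (H : Type u) (_ : Group H), Nonempty (commutator H ≃* G)

/-- The laws `x^p = 1` and `[[x, y], z] = 1`. -/
def laws (p : ℕ) : Set (FreeGroup ℕ) :=
  {FreeGroup.of 0 ^ p, ⁅⁅FreeGroup.of 0, FreeGroup.of 1⁆, FreeGroup.of 2⁆}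

/-- For every odd prime `p` the variety of groups defined by the laws `x^p = 1` and
`[[x, y], z] = 1` is not contained in the variety of abelian groups, and every group in it has an
integral. -/
theorem result (p : ℕ) (hp : p.Prime) (h2 : p ≠ 2) :
    (∃ (G : Type u) (_ : Group G), InVariety (laws p) G ∧ ∃ a b : G, a * b ≠ b * a) ∧
    ∀ (G : Type u) [Group G], InVariety (laws p) G → HasIntegral G := by
  constructor
  · refine ⟨ULift.{u} (Pool.Agent.H42IV.Heis p), inferInstance, ?_, ?_⟩
    · intro w hw f
      have hinj : Function.Injective
          (MulEquiv.ulift : ULift.{u} (Pool.Agent.H42IV.Heis p) ≃* Pool.Agent.H42IV.Heis p) :=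
        MulEquiv.injective _
      apply hinj
      rcases hw with rfl | rfl
      · rw [map_pow, map_pow, Pool.Agent.H42IV.Heis.exp, map_one]
      · rw [map_commutatorElement, map_commutatorElement, map_commutatorElement,
          map_commutatorElement, Pool.Agent.H42IV.Heis.cl2, map_one]
    · obtain ⟨x, y, hxy⟩ := Pool.Agent.H42IV.Heis.not_comm hp h2
      exact ⟨⟨x⟩, ⟨y⟩, fun h => hxy (congrArg ULift.down h)⟩
  · intro G _ hG
    have h1 : ∀ x : G, x ^ p = 1 := by
      intro x
      have := hG _ (Set.mem_insert _ _) (fun _ => x)
      rwa [map_pow, FreeGroup.lift_apply_of] at this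
    have h3 : Pool.Agent.H42IV.Cl2 G := by
      intro x y z
      have := hG _ (Set.mem_insert_of_mem _ (Set.mem_singleton _))
        (fun n => if n = 0 then x else if n = 1 then y else z)
      rw [map_commutatorElement, map_commutatorElement, FreeGroup.lift_apply_of,
        FreeGroup.lift_apply_of, FreeGroup.lift_apply_of] at this
      simpa using this
    exact Pool.Agent.H42IV.has_integral hp h2 h1 h3

end Pool.Agent.Results.MP_fbf3cb_al.ClassTwo
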